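import Pool.Agent.H911R2.KamekoMain

/-!
The equivalence of Q1 (`Sq^0` on the coinvariants is injective in every degree `n ≥ 0` if and only
if `d ≤ 4`) is false: for `d = 4` the operation kills the non-zero class of degree `n = 0`
(in terms of the algebraic transfer, `h_0^4 ↦ h_1^4 = 0`).
-/

set_option autoImplicit false

namespace Pool.Agent.Results.MP_ca28bb_gt.Disproof

open Pool.Agent.H911R2.Kameko

/-- It is not true that for all `d ≥ 1` Kameko's squaring operation on the coinvariants is
injective in every degree `n ≥ 0` if and only if `d ≤ 4`. -/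
theorem result : ¬ ∀ d : ℕ, 0 < d → ((∀ n : ℕ, SqInjective d n) ↔ d ≤ 4) := by
  intro h
  exact not_injective_four (((h 4 (by norm_num)).mpr le_rfl) 0)

end Pool.Agent.Results.MP_ca28bb_gt.Disproof
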