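import Pool.Agent.H911R2.KamekoMain

/-!
For every `d ≥ 5` Kameko's squaring operation on the coinvariants `F_2 ⊗_{GL_d} PH_n` fails to be
injective in infinitely many degrees, namely in all degrees `n = 2^k - 1` with `k ≥ d`.

The kernel element is the class of `a_1^{(2^k-1)}` (the one which the algebraic transfer sends to
`h_0^{d-1} h_k`). It is non-zero because of an explicit `GL_d`-invariant class of degree `2^k-1` in
`F_2 ⊗_A P_d`; it is killed because its image `a_1^{(2^{k+1}-1)} a_2^{(1)} ⋯ a_d^{(1)}` has the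
factor `a_2^{(1)} a_3^{(1)} a_4^{(1)} a_5^{(1)}`, which is zero in the coinvariants.
-/

set_option autoImplicit false

namespace Pool.Agent.Results.MP_ca28bb_gt.FailsFromFive

open Pool.Agent.H911R2.Kameko

/-- For every `d ≥ 5` and every `k ≥ d`, Kameko's squaring operation
`F_2 ⊗_{GL_d} PH_n → F_2 ⊗_{GL_d} PH_{2n+d}` is not injective in degree `n = 2^k - 1`. -/
theorem result : ∀ d k : ℕ, 5 ≤ d → d ≤ k → ¬ SqInjective d (2 ^ k - 1) :=
  fun _ _ hd hk => not_injective hd hk

end Pool.Agent.Results.MP_ca28bb_gt.FailsFromFive
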